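import Pool.Agent.Lib.MP_1e63be_al.S42.Core

set_option autoImplicit false
set_option linter.unusedSectionVars false

universe u v w

namespace Pool.Agent.Lib.MP_1e63be_al.S42

open Pool.Agent.Lib.MP_1e63be_al Cardinal

variable {R S : Type u} [Ring R] [Ring S]

/-- invariance of a relation under one automorphism -/
def InvBy (le : PPCond S → PPCond S → Prop) (σ : S ≃+* S) : Prop :=
  ∀ a b, le a b → le (a.map σ) (b.map σ)

/-- few orbits of binary conditions under the automorphisms that preserve the relation -/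
def FewOrbG (f : R →+* S) (le : PPCond S → PPCond S → Prop) (ν : Cardinal.{u}) : Prop :=
  ∀ A : Set R, ∃ X : Set (F2 R), #X ≤ max #A ν ∧ ∀ θ : F2 R, ∃ θ' ∈ X, ∃ σ : S ≃+* S,
    InvBy le σ ∧ InvBy le σ.symm ∧ (∀ r ∈ A, σ (f r) = f r) ∧ (θ.map f).map σ = θ'.map f

theorem fam_transportG {f : R →+* S}
    {le : PPCond S → PPCond S → Prop} (H : Defble le) {σ : S ≃+* S}
    (hσ : InvBy le σ) {φ0 ψ0 δ δ' : PPCond R} {Γ : Set (PPCond R)}
    (h1 : ∀ φ ∈ insert ψ0 (insert φ0 Γ), (φ.map f).map σ = φ.map f)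
    (h2 : PLe (δ.map f) ((δ'.map f).map σ)) (h3 : pull f le ψ0 δ')
    (h : insert δ Γ ∈ Fam (pull f le) φ0 ψ0) : insert δ' Γ ∈ Fam (pull f le) φ0 ψ0 := by
  refine ⟨?_, ?_⟩
  · by_contra hc
    rw [Set.insert_comm] at hc
    obtain ⟨l, hl, _, rfl, hle⟩ := not_cons_insert (H.pull f) hc
    have k := hσ _ _ hle
    rw [h1 _ (Set.mem_insert _ _)] at k
    refine h.1 (δ :: l) (fun φ hφ => ?_) _ rfl (H.trans (H.of_le fun M _ _ x hx => ?_) k)
    · rw [Set.insert_comm]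
      rcases List.mem_cons.1 hφ with rfl | hφ
      · exact Set.mem_insert _ _
      · exact Set.mem_insert_of_mem _ (hl φ hφ)
    · rw [res_lmeet] at hx
      rw [mem_map, res_inf, res_lmeet]
      refine ⟨fun φ hφ => (mem_map σ _ M x).1 ?_, (mem_map σ _ M x).1
        (h2 M (hx δ List.mem_cons_self))⟩
      rw [h1 φ (Set.mem_insert_of_mem _ (hl φ hφ))]
      exact hx φ (List.mem_cons_of_mem _ hφ)
  · rintro φ (rfl | hφ)
    · exact h3
    · exact h.2 φ (Set.mem_insert_of_mem _ hφ)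

theorem isoCond_pullG {f : R →+* S}
    {le : PPCond S → PPCond S → Prop} (H : Defble le) {ν : Cardinal.{u}}
    (hν : ν < 𝔠) (hO : FewOrbG f le ν) : IsoCond (pull f le) := by
  have H' := H.pull f
  refine isoCond_of_count H' fun φ0 ψ0 N hN hu hn χ _ => ?_
  have hF := fam_finChar (pull f le) φ0 ψ0
  have h0 := fam_empty H' hn
  obtain ⟨_, ⟨Γ, ⟨hΓ, hΓu⟩, rfl⟩, hmin⟩ := (wellFounded_lt (α := Cardinal.{u})).has_min
    ((fun Γ : Set (PPCond R) => #Γ) '' {Γ | Γ ∈ Fam (pull f le) φ0 ψ0 ∧ ∀ m m',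
      Maximal (· ∈ Fam (pull f le) φ0 ψ0) m → Maximal (· ∈ Fam (pull f le) φ0 ψ0) m' →
      Γ ⊆ m → Γ ⊆ m' → m = m'}) (by
    obtain ⟨m, -, hm⟩ := hF.exists_maximal h0
    exact ⟨_, m, ⟨hm.1, fun m1 m2 k1 k2 k3 k4 => (le_antisymm (hm.2 k1.1 k3) k3).trans
      (le_antisymm k4 (hm.2 k2.1 k4))⟩, rfl⟩)
  obtain ⟨m0, hm0Γ, hm0⟩ := hF.exists_maximal hΓ
  obtain ⟨a0, ha0, hb0, -⟩ := fam_realize H' hN hu hm0
  have hlk : ∀ θ δ, pull f le ψ0 (lk θ δ ψ0) := fun θ δ => H'.of_le (le_sup_right' _ _)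
  have hm0' : ∀ θ δ, a0 ∈ (lk θ δ ψ0).eval N.carrier ↔
      insert (lk θ δ ψ0) Γ ∈ Fam (pull f le) φ0 ψ0 := by
    intro θ δ
    constructor
    · intro h
      exact (hF _).2 fun y hy hyf => (hF _).1 hm0.1 y
        (hy.trans (Set.insert_subset ((hb0 _).2 ⟨hlk _ _, h⟩) hm0Γ)) hyf
    · intro h
      obtain ⟨m, k1, k2⟩ := hF.exists_maximal h
      rw [hΓu _ _ k2 hm0 ((Set.subset_insert _ _).trans k1) hm0Γ] at k1
      exact ((hb0 _).1 (k1 (Set.mem_insert _ _))).2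
  have key : ∀ Φ : Set (PPCond R), ∃ X : Set (F2 R), #X ≤ max (max (max #Γ #Φ) ℵ₀) ν ∧
      ∀ θ, ∃ θ' ∈ X, ∀ δ ∈ Φ,
        (a0 ∈ (lk θ δ ψ0).eval N.carrier ↔ a0 ∈ (lk θ' δ ψ0).eval N.carrier) := by
    intro Φ
    let C : Set (PPCond R) := insert ψ0 (insert φ0 ∅)
    have hC : C.Countable := (Set.countable_empty.insert _).insert _
    obtain ⟨X, h1, h2⟩ := hO (ent ((Γ ∪ Φ) ∪ C))
    refine ⟨X, h1.trans (max_le_max ((mk_ent_le _).trans (max_le ?_ (le_max_right _ _))) le_rfl),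
      fun θ => ?_⟩
    · refine (Cardinal.mk_union_le _ _).trans ((Cardinal.add_le_max _ _).trans
        (max_le (max_le ?_ ?_) (le_max_right _ _)))
      · exact (Cardinal.mk_union_le _ _).trans (Cardinal.add_le_max _ _)
      · exact (Cardinal.le_aleph0_iff_set_countable.2 hC).trans (le_max_right _ _)
    obtain ⟨θ', h3, σ, hσ, hσ', h4, h5⟩ := h2 θ
    have h6 : ∀ φ ∈ insert ψ0 (insert φ0 Γ), (φ.map f).map σ = φ.map f := by
      rintro φ (rfl | rfl | h)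
      · exact ent_fix h4 (Or.inr (Or.inl rfl))
      · exact ent_fix h4 (Or.inr (Or.inr (Or.inl rfl)))
      · exact ent_fix h4 (Or.inl (Or.inl h))
    refine ⟨θ', h3, fun δ hδ => ?_⟩
    have h7 : ∀ (M : Type u) [AddCommGroup M] [Module S M] (x : M),
        x ∈ (((lk θ δ ψ0).map f).map σ).eval M ↔ x ∈ ((lk θ' δ ψ0).map f).eval M := by
      intro M _ _ x
      rw [mem_map, res_lk, ← mem_map, map_lk, h5, h6 _ (Set.mem_insert _ _),
        ent_fix h4 (Or.inl (Or.inr hδ)), res_lk]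
    rw [hm0', hm0']
    constructor
    · refine fam_transportG H hσ' (fun φ hφ => ?_) (fun M _ _ x hx => ?_) (hlk _ _)
      · rw [← h6 φ hφ, map_symm_map, h6 φ hφ]
      · rw [mem_map, ← h7, ← mem_map, map_symm_map]
        exact hx
    · exact fam_transportG H hσ h6 (fun M _ _ x hx => (h7 M x).2 hx) (hlk _ _)
  by_cases hc : #Γ < 𝔠
  · obtain ⟨X, h1, h2⟩ := key (Set.range χ)
    refine ⟨a0, ha0, X, lt_of_le_of_lt h1 (max_lt (max_lt (max_lt hc ?_)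
      Cardinal.aleph0_lt_continuum) hν), fun θ => ?_⟩
    · exact lt_of_le_of_lt (Cardinal.le_aleph0_iff_set_countable.2 (Set.countable_range _))
        Cardinal.aleph0_lt_continuum
    · obtain ⟨θ', k1, k2⟩ := h2 θ
      exact ⟨θ', k1, fun s => k2 _ ⟨s, rfl⟩⟩
  · exfalso
    have hc' := not_lt.1 hc
    obtain ⟨Φ, h1, h2⟩ := tree_two hF h0 (Cardinal.aleph0_lt_continuum.trans_le hc') (by
      intro Γ' k1 k2
      by_contra k3
      push Not at k3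
      exact hmin _ ⟨Γ', ⟨k1, k3⟩, rfl⟩ k2)
    obtain ⟨X, h3, h4⟩ := key Φ
    have h5 : #X ≤ #Γ := h3.trans (max_le (max_le (max_le le_rfl h1)
      (Cardinal.aleph0_le_continuum.trans hc')) (hν.le.trans hc'))
    refine absurd h2 (not_lt.2 (le_trans (Cardinal.mk_le_mk_of_subset (t := (fun θ : F2 R =>
      {δ ∈ Φ | pull f le ψ0 δ ∧ a0 ∈ (lk θ δ ψ0).eval N.carrier}) '' X) ?_)
      (Cardinal.mk_image_le.trans h5)))
    rintro _ ⟨m, hm, rfl⟩
    obtain ⟨a, -, k1, k2⟩ := fam_realize H' hN hu hm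
    obtain ⟨θ, hθ⟩ := k2 a0 ha0
    obtain ⟨θ', k3, k4⟩ := h4 θ
    refine ⟨θ', k3, Set.ext fun δ => ?_⟩
    simp only [Set.mem_ofPred_eq, Set.mem_inter_iff, k1]
    exact ⟨fun h => ⟨⟨h.2.1, (hθ δ h.2.1).2 ((k4 δ h.1).2 h.2.2)⟩, h.1⟩,
      fun h => ⟨h.2, h.1.1, (k4 δ h.2).1 ((hθ δ h.1.1).1 h.1.2)⟩⟩

end Pool.Agent.Lib.MP_1e63be_al.S42
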