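import Pool.Agent.Lib.MP_1e63be_al.Perfect

set_option autoImplicit false
set_option linter.unusedSectionVars false

universe u v w

namespace Pool.Agent.Lib.MP_1e63be_al.S42

open Pool.Agent.Lib.MP_1e63be_al

theorem noeth_of_gen {H Q : Type*} [Ring H] [AddCommGroup Q] [Module H Q] {d : ℕ}
    (U : Fin d → Q →ₗ[H] Q)
    (h : ∀ x, x ≠ 0 → ∀ y, ∃ η : Fin d → H, y = ∑ i, η i • U i x) : IsNoetherian H Q := by
  classical
  rcases subsingleton_or_nontrivial Q with hq | hq
  · exact isNoetherian_of_finite _ _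
  obtain ⟨x0, hx0⟩ := exists_ne (0 : Q)
  have hspan : ∀ x, x ≠ 0 → ∀ W : Submodule H Q, (∀ i, U i x ∈ W) → W = ⊤ := by
    intro x hx W hW
    refine eq_top_iff.2 fun y _ => ?_
    obtain ⟨η, rfl⟩ := h x hx y
    exact W.sum_mem fun i _ => W.smul_mem _ (hW i)
  have : Module.Finite H Q := ⟨⟨Finset.univ.image fun i => U i x0, hspan x0 hx0 _ fun i =>
    Submodule.subset_span (by simp)⟩⟩
  obtain ⟨W, hW, -⟩ := (eq_top_or_exists_le_coatom (⊥ : Submodule H Q)).resolve_left bot_ne_top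
  have : IsSimpleModule H (Q ⧸ W) := isSimpleModule_iff_isCoatom.2 hW
  refine isNoetherian_of_ker_bot (LinearMap.pi fun i => W.mkQ ∘ₗ U i) ?_
  refine eq_bot_iff.2 fun x hx => ?_
  by_contra hne
  exact hW.1 (hspan x hne W fun i => (Submodule.Quotient.mk_eq_zero _).1 (congrFun hx i))

theorem acc_of_gen {H N : Type*} [Ring H] [AddCommGroup N] [Module H N] {d : ℕ}
    (U : Fin d → N →ₗ[H] N) (Φ Ψ : Submodule H N) (hΦ : ∀ i, ∀ x ∈ Φ, U i x ∈ Φ)
    (hΨ : ∀ i, ∀ x ∈ Ψ, U i x ∈ Ψ)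
    (h : ∀ x ∈ Φ, x ∉ Ψ → ∀ y ∈ Φ, ∃ η : Fin d → H, ∑ i, η i • U i x - y ∈ Ψ)
    (W : ℕ → Submodule H N) (hW : Monotone W) (h1 : ∀ n, Ψ ≤ W n) (h2 : ∀ n, W n ≤ Φ) :
    ∃ n, W (n + 1) ≤ W n := by
  let P : Submodule H Φ := Ψ.comap Φ.subtype
  let V : Fin d → (Φ ⧸ P) →ₗ[H] (Φ ⧸ P) := fun i =>
    P.mapQ P ((U i).restrict (hΦ i)) (fun x hx => hΨ i _ hx)
  have hno : IsNoetherian H (Φ ⧸ P) := by
    refine noeth_of_gen V fun x hx y => ?_
    obtain ⟨x, rfl⟩ := Submodule.Quotient.mk_surjective _ x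
    obtain ⟨y, rfl⟩ := Submodule.Quotient.mk_surjective _ y
    obtain ⟨η, hη⟩ := h x x.2 (fun k => hx ((Submodule.Quotient.mk_eq_zero _).2 k)) y y.2
    refine ⟨η, Eq.symm ?_⟩
    have : ∑ i, η i • V i (Submodule.Quotient.mk x) =
        P.mkQ (∑ i, η i • (U i).restrict (hΦ i) x) := by
      rw [map_sum]
      exact Finset.sum_congr rfl fun i _ => rfl
    rw [this, Submodule.mkQ_apply, Submodule.Quotient.eq]
    change Φ.subtype _ ∈ Ψ
    rw [map_sub, map_sum]
    exact hη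
  obtain ⟨n, hn⟩ := monotone_stabilizes_iff_noetherian.2 hno
    ⟨fun n => ((W n).comap Φ.subtype).map P.mkQ,
      fun _ _ k => Submodule.map_mono (Submodule.comap_mono (hW k))⟩
  refine ⟨n, fun x hx => ?_⟩
  have k1 : P.mkQ ⟨x, h2 _ hx⟩ ∈ ((W (n + 1)).comap Φ.subtype).map P.mkQ := ⟨_, hx, rfl⟩
  have k2 : ((W n).comap Φ.subtype).map P.mkQ = ((W (n + 1)).comap Φ.subtype).map P.mkQ :=
    hn (n + 1) (Nat.le_succ n)
  rw [← k2] at k1
  obtain ⟨z, hz, k3⟩ := k1
  have k4 : z.1 - x ∈ Ψ := (Submodule.Quotient.eq P).1 k3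
  simpa using (W n).sub_mem hz (h1 n k4)

variable {A B S : Type u} [Ring A] [Ring B] [Ring S]

section
variable {g : A →+* B} {M : Type u} [AddCommGroup M] [Module A M]

/-- value of an element of the coinduced module -/
def ev (h : Co g M) (t : B) : M := h.lin (Res.of g t)

theorem ev_smul (b : B) (h : Co g M) (t : B) : ev (b • h) t = ev h (t * b) := rfl
theorem ev_add (h h' : Co g M) (t : B) : ev (h + h') t = ev h t + ev h' t := rfl
theorem ev_sub (h h' : Co g M) (t : B) : ev (h - h') t = ev h t - ev h' t := rfl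
theorem ev_zero (t : B) : ev (0 : Co g M) t = 0 := rfl
theorem ev_g (h : Co g M) (a : A) (t : B) : ev h (g a * t) = a • ev h t :=
  map_smul h.lin a (Res.of g t)
theorem ev_add' (h : Co g M) (t t' : B) : ev h (t + t') = ev h t + ev h t' :=
  map_add h.lin (Res.of g t) (Res.of g t')

theorem co_ext {h h' : Co g M} (k : ∀ t, ev h t = ev h' t) : h = h' := LinearMap.ext k

theorem ev_sum {ι : Type*} (s : Finset ι) (h : ι → Co g M) (t : B) :
    ev (∑ i ∈ s, h i) t = ∑ i ∈ s, ev (h i) t := by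
  classical
  induction s using Finset.induction_on with
  | empty => rfl
  | insert i s hi ih => rw [Finset.sum_insert hi, Finset.sum_insert hi, ev_add, ih]

/-- building an element of the coinduced module -/
def mkCo (g : A →+* B) (p : B → M) (h1 : ∀ t t', p (t + t') = p t + p t')
    (h2 : ∀ a t, p (g a * t) = a • p t) : Co g M :=
  show Res g B →ₗ[A] M from ⟨⟨p, h1⟩, h2⟩

theorem ev_mkCo (p : B → M) (h1 : ∀ t t', p (t + t') = p t + p t')
    (h2 : ∀ a t, p (g a * t) = a • p t) (t : B) : ev (mkCo g p h1 h2) t = p t := rfl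

/-- the family is a basis of the ring as a left module over the source -/
def IsB (g : A →+* B) {Λ : Type w} (u : Λ → B) : Prop :=
  ∃ b : Module.Basis Λ A (Res g B), ∀ l, b l = Res.of g (u l)

theorem basis_ext {Λ : Type w} {u : Λ → B} (hu : IsB g u) {h h' : Co g M}
    (k : ∀ l, ev h (u l) = ev h' (u l)) : h = h' := by
  obtain ⟨b, hb⟩ := hu
  exact b.ext (f₁ := h.lin) (f₂ := h'.lin) fun l => by rw [hb]; exact k l

theorem exists_co {Λ : Type w} {u : Λ → B} (hu : IsB g u) (m : Λ → M) :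
    ∃ h : Co g M, ∀ l, ev h (u l) = m l := by
  obtain ⟨b, hb⟩ := hu
  exact ⟨(b.constr ℕ m : Res g B →ₗ[A] M), fun l => by
    have := b.constr_basis ℕ m l
    rwa [hb] at this⟩

theorem AC_co (hM : AC A M) : AC B (Co g M) := by
  classical
  intro F _ _ J e c hfin
  obtain ⟨h, hh⟩ := hM (Res g F) (J × B) (fun p => Res.of g (p.2 • e p.1))
    (fun p => ev (c p.1) p.2) (fun s => by
      obtain ⟨h, hh⟩ := hfin (s.image Prod.fst)
      refine ⟨⟨⟨fun x => ev (h x) 1, fun x y => congrArg (ev · 1) (map_add h x y)⟩,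
        fun a x => ?_⟩, fun p hp => ?_⟩
      · change ev (h (g a • (show F from x))) 1 = a • ev (h x) 1
        rw [map_smul, ev_smul, ← ev_g, one_mul, mul_one]
      · change ev (h (p.2 • e p.1)) 1 = _
        rw [map_smul, ev_smul, one_mul, hh _ (Finset.mem_image_of_mem _ hp)])
  refine ⟨⟨⟨fun x => mkCo g (fun t => h (Res.of g (t • x))) (fun t t' => ?_) (fun a t => ?_),
    fun x y => co_ext fun t => ?_⟩, fun b x => co_ext fun t => ?_⟩,
    fun j => co_ext fun t => hh (j, t)⟩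
  · rw [add_smul]; exact map_add h _ _
  · rw [mul_smul]; exact map_smul h a _
  · rw [ev_add, ev_mkCo, ev_mkCo, ev_mkCo, smul_add]; exact map_add h _ _
  · change h (Res.of g (t • b • x)) = h (Res.of g ((t * b) • x))
    rw [mul_smul]

instance : Module (Module.End A M) (Co g M) :=
  inferInstanceAs (Module (Module.End A M) (Res g B →ₗ[A] M))

theorem ev_end (η : Module.End A M) (h : Co g M) (t : B) : ev (η • h) t = η (ev h t) := rfl

/-- postcomposition is linear -/
def post (η : Module.End A M) : Co g M →ₗ[B] Co g M where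
  toFun h := η • h
  map_add' := smul_add η
  map_smul' _ _ := rfl

/-- multiplication commutes with postcomposition -/
def mulB (b : B) : Co g M →ₗ[Module.End A M] Co g M where
  toFun h := b • h
  map_add' := smul_add b
  map_smul' _ _ := rfl

theorem end_decomp {d : ℕ} {u : Fin d → B} (hB : IsB g u) (hu : ∀ l t, t * u l = u l * t)
    (γ : Co g M →ₗ[B] Co g M) :
    ∃ η : Fin d → Module.End A M, ∀ h, γ h = ∑ l, η l • mulB (u l) h := by
  classical
  choose b hb using fun (l : Fin d) (m : M) => exists_co hB (Pi.single l m)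
  have hadd : ∀ l m m', b l (m + m') = b l m + b l m' := fun l m m' =>
    basis_ext hB fun i => by rw [ev_add, hb, hb, hb, Pi.single_add]; rfl
  have hsm : ∀ l (a : A) m, b l (a • m) = g a • b l m := fun l a m =>
    basis_ext hB fun i => by
      rw [ev_smul, ← hu, ev_g, hb, hb, Pi.single_smul']; rfl
  refine ⟨fun l => ⟨⟨fun m => ev (γ (b l m)) 1, fun m m' => ?_⟩, fun a m => ?_⟩,
    fun h => co_ext fun t => ?_⟩
  · rw [hadd, map_add, ev_add]
  · change ev (γ (b l (a • m))) 1 = a • ev (γ (b l m)) 1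
    rw [hsm, map_smul, ev_smul, ← ev_g, one_mul, mul_one]
  · have h1 : t • h = ∑ l, b l (ev h (t * u l)) := basis_ext hB fun i => by
      rw [ev_sum, ev_smul, ← hu]
      simp only [hb]
      rw [Finset.sum_eq_single i (fun l _ hl => Pi.single_eq_of_ne hl.symm _) (by simp),
        Pi.single_eq_same]
    have h2 : ev (γ h) t = ev (γ (t • h)) 1 := by rw [map_smul, ev_smul, one_mul]
    rw [h2, h1, map_sum, ev_sum, ev_sum]
    rfl

end

theorem exists_transl {g : A →+* B} {d : ℕ} {u : Fin d → B} (hB : IsB g u)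
    (φ : PPCond B) (l0 : Fin d) : ∃ χ : PPCond A, ∀ (M : Type u) [AddCommGroup M] [Module A M]
      (x : M), x ∈ χ.eval M ↔ ∃ h ∈ φ.eval (Co g M), (∀ l < l0, ev h (u l) = 0) ∧
        ev h (u l0) = x := by
  classical
  have : Module.Free A (Res g B) := Module.Free.of_basis hB.choose
  obtain ⟨θ, hθ⟩ := exists_F2_free (R := A) (F := Fin (φ.n + 1) → Res g B)
    (J := (Fin φ.m × Fin d) ⊕ {l // l < l0}) Finset.univ
    (Sum.elim (fun p i => Res.of g (u p.2 * φ.H i p.1))
      (fun l => Pi.single 0 (Res.of g (u l.1)))) (Pi.single 0 (Res.of g (u l0))) 0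
  refine ⟨θ.img (pbot A), fun M _ _ x => ?_⟩
  simp only [mem_img, mem_pbot, hθ]
  constructor
  · rintro ⟨_, rfl, Φ, h1, h2, -⟩
    let c : Fin (φ.n + 1) → Co g M := fun i => Φ ∘ₗ LinearMap.single A (fun _ => Res g B) i
    have hc : ∀ i t, ev (c i) t = Φ (Pi.single i (Res.of g t)) := fun _ _ => rfl
    refine ⟨c 0, ⟨fun i => c i.succ, fun j => basis_ext hB fun l => ?_⟩,
      fun l hl => h1 (.inr ⟨l, hl⟩) (Finset.mem_univ _), h2⟩
    have := h1 (.inl (j, l)) (Finset.mem_univ _)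
    rw [ev_add, ev_sum, ev_zero, ← this]
    simp only [ev_smul, hc]
    rw [← Fin.sum_univ_succ (fun i => Φ (Pi.single i (Res.of g (u l * φ.H i j)))),
      ← map_sum, Finset.univ_sum_single]
    rfl
  · rintro ⟨h, ⟨w, hw⟩, h1, h2⟩
    let c : Fin (φ.n + 1) → Co g M := Fin.cons h w
    let Φ : (Fin (φ.n + 1) → Res g B) →ₗ[A] M := ∑ i, (c i).lin ∘ₗ LinearMap.proj i
    have hΦ : ∀ y, Φ y = ∑ i, ev (c i) (y i) := fun y => by
      simp only [Φ, LinearMap.sum_apply]; rfl
    have hΦ0 : ∀ t : Res g B, Φ (Pi.single 0 t) = ev h t := fun t => by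
      rw [hΦ, Finset.sum_eq_single 0 (fun i _ hi => by
        rw [Pi.single_eq_of_ne hi]; exact map_zero (c i).lin) (by simp), Pi.single_eq_same]
      rfl
    refine ⟨0, rfl, Φ, ?_, (hΦ0 _).trans h2, map_zero _⟩
    rintro (⟨j, l⟩ | ⟨l, hl⟩) -
    · have := congrArg (ev · (u l)) (hw j)
      simp only [ev_add, ev_sum, ev_smul, ev_zero] at this
      rw [hΦ, Fin.sum_univ_succ]
      exact this
    · exact (hΦ0 _).trans (h1 l hl)

end Pool.Agent.Lib.MP_1e63be_al.S42
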