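import Pool.Agent.Lib.MP_1e63be_al.S42.Co

set_option autoImplicit false
set_option linter.unusedSectionVars false

universe u v w

namespace Pool.Agent.Lib.MP_1e63be_al.S42

open Pool.Agent.Lib.MP_1e63be_al

variable {A B S : Type u} [Ring A] [Ring B] [Ring S]

/-- implication in all modules coinduced from a definable class -/
def coLe (g : A →+* B) (le : PPCond A → PPCond A → Prop) (a b : PPCond B) : Prop :=
  ∀ (M : Type u) [AddCommGroup M] [Module A M], Good le M → a.eval (Co g M) ⊆ b.eval (Co g M)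

theorem defble_coLe (g : A →+* B) (le : PPCond A → PPCond A → Prop) : Defble (coLe g le) :=
  ⟨fun h M _ _ _ => h _, fun h h' M _ _ k => (h M k).trans (h' M k), fun θ _ _ h M _ _ k x hx => by
    obtain ⟨y, h1, h2⟩ := (mem_img _ _ _ _).1 hx
    exact (mem_img _ _ _ _).2 ⟨y, h M k h1, h2⟩⟩

theorem good_co (g : A →+* B) {le : PPCond A → PPCond A → Prop} {M : Type u} [AddCommGroup M]
    [Module A M] (h : Good le M) : Good (coLe g le) (Co g M) := fun _ _ k => k M h

theorem exists_chain {le : PPCond A → PPCond A → Prop} (H : Defble le)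
    (hno : ∀ φ ψ, ¬ MinPair le φ ψ) {α β : PPCond A} (h1 : le β α) (h2 : ¬ le α β) :
    ∃ c : ℕ → PPCond A, (∀ n, le β (c n)) ∧ (∀ n, le (c n) α) ∧ (∀ n, le (c n) (c (n + 1))) ∧
      ∀ n, ¬ le (c (n + 1)) (c n) := by
  let Q := {χ : PPCond A // le β χ ∧ le χ α ∧ ¬ le α χ}
  have hc : ∀ p : Q, ∃ q : Q, le p.1 q.1 ∧ ¬ le q.1 p.1 := by
    intro p
    by_contra h
    refine hno α p.1 ⟨p.2.2.1, p.2.2.2, fun χ k1 k2 => ?_⟩
    by_contra h'
    push Not at h'
    exact h ⟨⟨χ, H.trans p.2.1 k1, k2, h'.2⟩, k1, h'.1⟩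
  choose s hs1 hs2 using hc
  let T : ℕ → Q := fun n => s^[n] ⟨β, H.refl _, h1, h2⟩
  have hT : ∀ n, T (n + 1) = s (T n) := fun n => Function.iterate_succ_apply' _ _ _
  exact ⟨fun n => (T n).1, fun n => (T n).2.1, fun n => (T n).2.2.1,
    fun n => by simp only [hT]; exact hs1 _, fun n => by simp only [hT]; exact hs2 _⟩

theorem noMin_co {g : A →+* B} {d : ℕ} {u : Fin d → B} (hB : IsB g u)
    (hu : ∀ l t, t * u l = u l * t) {le : PPCond A → PPCond A → Prop} (H : Defble le)
    (hno : ∀ φ ψ, ¬ MinPair le φ ψ) (φ ψ : PPCond B) : ¬ MinPair (coLe g le) φ ψ := by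
  intro hm
  choose α hα using exists_transl hB φ
  choose β hβ using exists_transl hB ψ
  obtain ⟨l0, hl0⟩ : ∃ l0, ¬ le (α l0) (β l0) := by
    by_contra hc
    push Not at hc
    refine hm.2.1 fun M _ _ hM h hh => ?_
    have key : ∀ m : ℕ, ∃ h' ∈ ψ.eval (Co g M), ∀ l : Fin d, l.1 < m → ev (h - h') (u l) = 0 := by
      intro m
      induction m with
      | zero => exact ⟨0, ψ.zero_mem, fun l hl => absurd hl (Nat.not_lt_zero _)⟩
      | succ m ih =>
        obtain ⟨h', k1, k2⟩ := ih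
        by_cases hd : m < d
        · obtain ⟨h'', k3, k4, k5⟩ := (hβ ⟨m, hd⟩ M _).1 (hM _ _ (hc ⟨m, hd⟩) ((hα _ M _).2
            ⟨h - h', PPCond.sub_mem hh (hm.1 M hM k1), fun l hl => k2 l hl, rfl⟩))
          refine ⟨h' + h'', PPCond.add_mem k1 k3, fun l hl => ?_⟩
          rw [← sub_sub, ev_sub]
          rcases Nat.lt_succ_iff_lt_or_eq.1 hl with hl | hl
          · rw [k2 l hl, k4 l hl, sub_zero]
          · obtain rfl : l = ⟨m, hd⟩ := Fin.ext hl
            rw [k5, sub_self]
        · exact ⟨h', k1, fun l _ => k2 l (by omega)⟩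
    obtain ⟨h', k1, k2⟩ := key d
    have : h - h' = 0 := basis_ext hB fun l => k2 l l.2
    rwa [sub_eq_zero.1 this]
  have hβα : le (β l0) (α l0) := H.of_good fun M _ _ hM x hx => by
    obtain ⟨h, k1, k2⟩ := (hβ _ M _).1 hx
    exact (hα _ M _).2 ⟨h, hm.1 M hM k1, k2⟩
  obtain ⟨c, c1, c2, c3, c4⟩ := exists_chain H hno hβα hl0
  choose Z hZ1 hZ2 using fun n => complete1 H (c4 n)
  obtain ⟨N, _, _, j, hN, hA, hj⟩ := exists_good_ext (RingHom.id A) le (∀ n, (Z n).carrier)
    (fun φ ψ h x hx => (mem_pi _ _ _).2 fun i => hZ1 i _ _ h ((mem_pi _ _ _).1 hx i))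
  have hA' : AC A N := hA.retract
    { toFun := fun x => x, map_add' := fun _ _ => rfl, map_smul' := fun _ _ => rfl }
    { toFun := fun x => x, map_add' := fun _ _ => rfl, map_smul' := fun _ _ => rfl }
    (fun _ => rfl)
  let sb : PPCond B → Submodule (Module.End A N) (Co g N) := fun χ =>
    { carrier := χ.eval (Co g N)
      zero_mem' := χ.zero_mem
      add_mem' := PPCond.add_mem
      smul_mem' := fun η _ h => PPCond.map_mem (post η) h }
  let mu : Fin d → Co g N →ₗ[B] Co g N := fun l =>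
    { toFun := fun h => u l • h
      map_add' := smul_add _
      map_smul' := fun b h => by
        change u l • b • h = b • u l • h
        rw [← mul_smul, ← hu, mul_smul] }
  let W : ℕ → Submodule (Module.End A N) (Co g N) := fun n =>
    { carrier := {h | h ∈ φ.eval (Co g N) ∧ ∃ h' ∈ ψ.eval (Co g N),
        (∀ l < l0, ev (h - h') (u l) = 0) ∧ ev (h - h') (u l0) ∈ (c n).eval N}
      zero_mem' := ⟨φ.zero_mem, 0, ψ.zero_mem, fun l _ => by rw [sub_zero, ev_zero],
        by rw [sub_zero, ev_zero]; exact (c n).zero_mem⟩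
      add_mem' := by
        rintro h1 h2 ⟨a1, h1', a2, a3, a4⟩ ⟨b1, h2', b2, b3, b4⟩
        refine ⟨PPCond.add_mem a1 b1, h1' + h2', PPCond.add_mem a2 b2, fun l hl => ?_, ?_⟩
        · rw [add_sub_add_comm, ev_add, a3 l hl, b3 l hl, add_zero]
        · rw [add_sub_add_comm, ev_add]; exact PPCond.add_mem a4 b4
      smul_mem' := by
        rintro η h ⟨a1, h', a2, a3, a4⟩
        refine ⟨PPCond.map_mem (post η) a1, η • h', PPCond.map_mem (post η) a2,
          fun l hl => ?_, ?_⟩
        · rw [← smul_sub, ev_end, a3 l hl, map_zero]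
        · rw [← smul_sub, ev_end]; exact PPCond.map_mem η a4 }
  obtain ⟨n, hn⟩ := acc_of_gen (fun l => mulB (u l)) (sb φ) (sb ψ)
    (fun l x hx => PPCond.map_mem (mu l) hx) (fun l x hx => PPCond.map_mem (mu l) hx)
    (fun x hx hnx y hy => by
      obtain ⟨γ, hγ⟩ := minpair_hom (defble_coLe g le) hm (good_co g hN) (good_co g hN)
        (AC_co hA') hx hnx hy
      obtain ⟨η, hη⟩ := end_decomp hB hu γ
      exact ⟨η, by rw [← hη]; exact hγ⟩) W
    (monotone_nat_of_le_succ fun n h ⟨a1, h', a2, a3, a4⟩ =>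
      ⟨a1, h', a2, a3, hN _ _ (c3 n) a4⟩)
    (fun n h hh => ⟨hm.1 N hN hh, h, hh, fun l _ => by rw [sub_self, ev_zero],
      by rw [sub_self, ev_zero]; exact (c n).zero_mem⟩) (fun n h hh => hh.1)
  have hsub : (c (n + 1)).eval N ⊆ (c n).eval N := by
    intro x hx
    obtain ⟨h, k1, k2, rfl⟩ := (hα _ N _).1 (hN _ _ (c2 _) hx)
    obtain ⟨-, h', a2, a3, a4⟩ := hn (show h ∈ W (n + 1) from
      ⟨k1, 0, ψ.zero_mem, fun l hl => by rw [sub_zero, k2 l hl], by rwa [sub_zero]⟩)
    have a5 : ev h' (u l0) ∈ (c n).eval N := hN _ _ (c1 n) ((hβ _ N _).2 ⟨h', a2, fun l hl => by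
      have := a3 l hl
      rwa [ev_sub, k2 l hl, zero_sub, neg_eq_zero] at this, rfl⟩)
    rw [ev_sub] at a4
    simpa using PPCond.add_mem a4 a5
  classical
  refine hZ2 n fun x hx => ?_
  have h1 := hj _ _ (hsub (PPCond.map_mem j (PPCond.map_mem
    (LinearMap.single A (fun i => (Z i).carrier) n) hx)))
  simpa using (mem_pi _ _ _).1 h1 n

theorem mem_pow {I : Type u} (M : Type u) [AddCommGroup M] [Module B M]
    (φ : PPCond B) (x : I → M) : x ∈ φ.eval (I → M) ↔ ∀ i, x i ∈ φ.eval M := by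
  refine ⟨fun h i => PPCond.map_mem (LinearMap.proj i : (I → M) →ₗ[B] M) h, fun h => ?_⟩
  choose w hw using h
  refine ⟨fun k i => w i k, fun j => funext fun i => ?_⟩
  simpa [Finset.sum_apply] using hw i j

theorem pull_coLe {ι : A →+* S} {g : A →+* B} {j : B →+* S} (hι : ∀ a, j (g a) = ι a)
    {Λ : Type} {u : Λ → B} (hB : IsB g u) {I : Type u} [Nonempty I] {w : I → S}
    (hw : ∀ i t, t * w i = w i * t) (hS : IsB ι fun p : Λ × I => j (u p.1) * w p.2)
    (le : PPCond A → PPCond A → Prop) : pull j (coLe ι le) = coLe g le := by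
  have key : ∀ (M : Type u) [AddCommGroup M] [Module A M],
      Nonempty (Res j (Co ι M) ≃ₗ[B] (I → Co g M)) := by
    intro M _ _
    let r : Res j (Co ι M) →ₗ[B] (I → Co g M) :=
      { toFun := fun h i => mkCo g (fun t => ev (show Co ι M from h) (j t * w i))
          (fun t t' => by rw [map_add, add_mul, ev_add'])
          (fun a t => by rw [map_mul, hι, mul_assoc, ev_g])
        map_add' := fun _ _ => rfl
        map_smul' := fun b h => funext fun i => co_ext fun t => by
          change ev (show Co ι M from h) (j t * w i * j b) =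
            ev (show Co ι M from h) (j (t * b) * w i)
          rw [map_mul, mul_assoc, ← hw, mul_assoc] }
    refine ⟨LinearEquiv.ofBijective r ⟨fun h h' k => basis_ext hS fun p => ?_, fun h => ?_⟩⟩
    · exact congrArg (fun z => ev (z p.2) (u p.1)) k
    · obtain ⟨z, hz⟩ := exists_co hS (fun p => ev (h p.2) (u p.1))
      exact ⟨z, funext fun i => basis_ext hB fun l => hz (l, i)⟩
  ext a b
  refine ⟨fun h M _ _ hM x hx => ?_, fun h M _ _ hM => ?_⟩
  · obtain ⟨e⟩ := key M
    exact (mem_pow _ _ _).1 (incl_iso e (φ := a) (ψ := b) (h M hM)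
      ((mem_pow _ _ (fun _ => x)).2 fun _ => hx)) (Classical.arbitrary I)
  · obtain ⟨e⟩ := key M
    exact incl_iso e.symm (φ := a) (ψ := b) fun x hx =>
      (mem_pow _ _ _).2 fun i => h M hM ((mem_pow _ _ _).1 hx i)

theorem inv_coLe {ι : A →+* S} (σ : S ≃+* S) (σ1 : A ≃+* A) (hσ : ∀ a, σ (ι a) = ι (σ1 a))
    {le : PPCond A → PPCond A → Prop} (hI : ∀ a b, le a b → le (a.map σ1) (b.map σ1))
    {a b : PPCond S} (h : coLe ι le a b) : coLe ι le (a.map σ) (b.map σ) := by
  intro M _ _ hM x hx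
  have hM' : Good le (Tw σ1 M) := fun p q k y hy =>
    (mem_map σ1 q M y).1 (hM _ _ (hI _ _ k) ((mem_map σ1 p M y).2 hy))
  let F : Tw σ (Co ι M) →ₗ[S] Co ι (Tw σ1 M) :=
    { toFun := fun z => mkCo ι (fun t => Tw.of σ1 (ev (show Co ι M from z) (σ t)))
        (fun t t' => by rw [map_add, ev_add']; rfl)
        (fun r t => by rw [map_mul, hσ, ev_g]; rfl)
      map_add' := fun _ _ => rfl
      map_smul' := fun s z => co_ext fun t => by
        change ev (show Co ι M from z) (σ t * σ s) = ev (show Co ι M from z) (σ (t * s))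
        rw [map_mul] }
  let un : Tw σ1 M → M := fun y => y
  let G : Co ι (Tw σ1 M) →ₗ[S] Tw σ (Co ι M) :=
    { toFun := fun z => Tw.of σ (mkCo ι (fun t => un (ev z (σ.symm t)))
        (fun t t' => by rw [map_add, ev_add']; rfl)
        (fun r t => by
          have : σ.symm (ι r) = ι (σ1.symm r) := by
            rw [RingEquiv.symm_apply_eq, hσ, RingEquiv.apply_symm_apply]
          rw [map_mul, this, ev_g]
          change σ1 (σ1.symm r) • un (ev z (σ.symm t)) = _
          rw [RingEquiv.apply_symm_apply]))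
      map_add' := fun _ _ => rfl
      map_smul' := fun s z => co_ext (g := ι) (M := M) fun t => by
        change ev z (σ.symm t * s) = ev z (σ.symm (t * σ s))
        rw [map_mul, RingEquiv.symm_apply_apply] }
  have h1 := PPCond.map_mem G (h _ hM' (PPCond.map_mem F ((mem_map σ a _ x).1 hx)))
  have h2 : G (F (Tw.of σ x)) = Tw.of σ x := co_ext (g := ι) (M := M) fun t => by
    change ev x (σ (σ.symm t)) = ev x t
    rw [RingEquiv.apply_symm_apply]
  rw [h2] at h1
  exact (mem_map σ b _ x).2 h1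

end Pool.Agent.Lib.MP_1e63be_al.S42
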