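import Pool.Agent.Lib.MP_1e63be_al.S42.Cnt

set_option autoImplicit false
set_option linter.unusedSectionVars false

universe u v w

namespace Pool.Agent.Lib.MP_1e63be_al.S42

open Pool.Agent.Lib.MP_1e63be_al Cardinal

theorem le_of_coLe {A S : Type u} [Ring A] [Ring S] {ι : A →+* S} {I : Type u} [Nonempty I]
    {v : I → S} (hv : IsB ι v) (hc : ∀ i t, t * v i = v i * t)
    {le : PPCond A → PPCond A → Prop} (H : Defble le) {a b : PPCond A}
    (h : coLe ι le (a.map ι) (b.map ι)) : le a b := by
  refine H.of_good fun M _ _ hM x hx => ?_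
  let r : Res ι (Co ι M) →ₗ[A] (I → M) :=
    { toFun := fun z i => ev (show Co ι M from z) (v i)
      map_add' := fun _ _ => rfl
      map_smul' := fun a z => funext fun i => by
        change ev (show Co ι M from z) (v i * ι a) = a • ev (show Co ι M from z) (v i)
        rw [← hc, ev_g] }
  let E := LinearEquiv.ofBijective r ⟨fun z z' k => basis_ext hv fun i => congrFun k i,
    fun m => let ⟨z, hz⟩ := exists_co hv m; ⟨z, funext hz⟩⟩
  exact (mem_pow _ _ _).1 (incl_iso E (φ := a) (ψ := b) (h M hM)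
    ((mem_pow _ _ (fun _ => x)).2 fun _ => hx)) (Classical.arbitrary I)

theorem lift_pp {B S : Type u} (p : B → S) (φ : PPCond S) (h : ∀ i j, φ.H i j ∈ Set.range p) :
    ∃ φ' : PPCond B, φ'.map p = φ := by
  choose c hc using h
  refine ⟨⟨φ.n, φ.m, c⟩, ?_⟩
  cases φ
  simp only [PPCond.map, PPCond.mk.injEq, heq_eq_eq, true_and]
  exact funext fun i => funext fun j => hc i j

variable {Ω S J : Type u} [Field Ω] [Ring S] [Algebra Ω S] (e : Module.Basis J Ω S)

/-- the subfield contains the structure constants -/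
def Form (F : Subfield Ω) : Prop :=
  (∀ i j l, e.repr (e i * e j) l ∈ F) ∧ ∀ j, e.repr 1 j ∈ F

theorem Form.mono {F F' : Subfield Ω} (h : Form e F) (k : F ≤ F') : Form e F' :=
  ⟨fun i j l => k (h.1 i j l), fun j => k (h.2 j)⟩

/-- elements with coordinates in a subfield -/
def SF (F : Subfield Ω) (h : Form e F) : Subring S where
  carrier := {s | ∀ j, e.repr s j ∈ F}
  zero_mem' := fun j => by simp
  one_mem' := h.2
  add_mem' := fun {a b} ha hb j => by
    rw [map_add, Finsupp.add_apply]; exact add_mem (ha j) (hb j)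
  neg_mem' := fun {a} ha j => by rw [map_neg, Finsupp.neg_apply]; exact neg_mem (ha j)
  mul_mem' := fun {a b} ha hb l => by
    rw [← e.linearCombination_repr a, ← e.linearCombination_repr b,
      Finsupp.linearCombination_apply, Finsupp.linearCombination_apply, Finsupp.sum, Finsupp.sum,
      Finset.sum_mul_sum, map_sum, Finsupp.finsetSum_apply]
    refine sum_mem fun i _ => ?_
    rw [map_sum, Finsupp.finsetSum_apply]
    refine sum_mem fun j _ => ?_
    rw [smul_mul_smul_comm, map_smul, Finsupp.smul_apply, smul_eq_mul]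
    exact mul_mem (mul_mem (ha i) (hb j)) (h.1 i j l)

theorem mem_SF {F : Subfield Ω} {h : Form e F} {s : S} : s ∈ SF e F h ↔ ∀ j, e.repr s j ∈ F :=
  Iff.rfl

theorem alg_mem {F : Subfield Ω} (h : Form e F) {c : Ω} (hc : c ∈ F) :
    algebraMap Ω S c ∈ SF e F h := fun j => by
  rw [Algebra.algebraMap_eq_smul_one, map_smul, Finsupp.smul_apply, smul_eq_mul]
  exact mul_mem hc (h.2 j)

theorem basis_mem {F : Subfield Ω} (h : Form e F) (m : J) : e m ∈ SF e F h := fun j => by
  classical
  rw [e.repr_self, Finsupp.single_apply]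
  split_ifs
  · exact one_mem _
  · exact zero_mem _

theorem isB_of_basis {F F' : Subfield Ω} (h : Form e F) {B : Type u} [Ring B] (j : B →+* S)
    (hj : Function.Injective j) (hj' : ∀ t m, e.repr (j t) m ∈ F') (g : SF e F h →+* B)
    (hg : ∀ a, j (g a) = a) {Λ : Type w} (v : Λ → Ω) (hv : LinearIndependent F v)
    (hsp : ∀ c ∈ F', c ∈ Submodule.span F (Set.range v)) (u : Λ → B)
    (hu : ∀ l, j (u l) = algebraMap Ω S (v l)) : IsB g u := by
  let j' : Res g B →+ S := j.toAddMonoidHom
  have hj2 : ∀ (a : SF e F h) (t : Res g B), j' (a • t) = a.1 * j' t := fun a t => by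
    rw [← hg]; exact map_mul j (g a) t
  have hju : ∀ l, j' (Res.of g (u l)) = algebraMap Ω S (v l) := hu
  have hli : LinearIndependent (SF e F h) fun l => Res.of g (u l) := by
    rw [linearIndependent_iff']
    intro s c hc l hl
    refine Subtype.ext (e.repr.injective (Finsupp.ext fun m => ?_))
    have h1 := congrArg (fun z => e.repr (j' z) m) hc
    simp only [map_sum, hj2, hju, map_zero, Finsupp.finsetSum_apply, ← Algebra.commutes,
      ← Algebra.smul_def, map_smul, Finsupp.smul_apply, smul_eq_mul, Finsupp.zero_apply] at h1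
    have h2 := linearIndependent_iff'.1 hv s (fun l => ⟨_, (c l).2 m⟩) (by
      rw [← h1]
      exact Finset.sum_congr rfl fun l _ => mul_comm _ _) l hl
    simpa using congrArg Subtype.val h2
  have hspan : ⊤ ≤ Submodule.span (SF e F h) (Set.range fun l => Res.of g (u l)) := by
    have key : ∀ m, ∀ c ∈ Submodule.span F (Set.range v), ∃ b ∈ Submodule.span (SF e F h)
        (Set.range fun l => Res.of g (u l)), j' b = c • e m := by
      intro m c hc
      induction hc using Submodule.span_induction with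
      | mem c hc =>
        obtain ⟨l, rfl⟩ := hc
        refine ⟨_, Submodule.smul_mem _ ⟨e m, basis_mem e h m⟩ (Submodule.subset_span ⟨l, rfl⟩),
          ?_⟩
        rw [hj2, hju, ← Algebra.commutes, Algebra.smul_def]
      | zero => exact ⟨0, zero_mem _, by rw [map_zero, zero_smul]⟩
      | add c c' _ _ h1 h2 =>
        obtain ⟨b, k1, k2⟩ := h1
        obtain ⟨b', k3, k4⟩ := h2
        exact ⟨b + b', add_mem k1 k3, by rw [map_add, k2, k4, add_smul]⟩
      | smul κ c _ h1 =>
        obtain ⟨b, k1, k2⟩ := h1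
        refine ⟨_, Submodule.smul_mem _ ⟨_, alg_mem e h κ.2⟩ k1, ?_⟩
        rw [hj2, k2, ← Algebra.smul_def, smul_smul]
        rfl
    intro t _
    choose b hb1 hb2 using fun m => key m _ (hsp _ (hj' t m))
    have : t = ∑ m ∈ (e.repr (j t)).support, b m := by
      refine hj ?_
      change j' t = j' _
      rw [map_sum]
      simp only [hb2]
      exact (e.linearCombination_repr (j t)).symm.trans (Finsupp.linearCombination_apply _ _)
    rw [this]
    exact sum_mem fun m _ => hb1 m
  exact ⟨Module.Basis.mk hli hspan, fun l => Module.Basis.mk_apply _ _ _⟩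

theorem isB_top {F : Subfield Ω} (h : Form e F) {Λ : Type w} (v : Module.Basis Λ F Ω) :
    IsB (SF e F h).subtype fun l => algebraMap Ω S (v l) :=
  isB_of_basis e (F' := ⊤) h (RingHom.id S) Function.injective_id (fun _ _ => trivial) _
    (fun _ => rfl) v v.linearIndependent (fun c _ => v.mem_span c) _ (fun _ => rfl)

theorem noMin_pull {R : Type u} [Ring R] (f : R →+* S) {K0 K' : Subfield Ω} (h0 : Form e K0)
    (hK : K0 ≤ K') [Algebra.IsAlgebraic K0 Ω] (hf : ∀ r j, e.repr (f r) j ∈ K')
    (hf' : ∀ s, (∀ j, e.repr s j ∈ K') → s ∈ Set.range f)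
    {le : PPCond (SF e K0 h0) → PPCond (SF e K0 h0) → Prop} (H : Defble le)
    (hno : ∀ φ ψ, ¬ MinPair le φ ψ) (φ ψ : PPCond R) :
    ¬ MinPair (pull f (coLe (SF e K0 h0).subtype le)) φ ψ := by
  intro hm
  let Y : Set Ω := ⋃ r ∈ Set.range (fun p : _ × _ => φ.H p.1 p.2) ∪
    Set.range (fun p : _ × _ => ψ.H p.1 p.2), Set.range (e.repr (f r))
  have hY : Y.Finite := ((Set.finite_range _).union (Set.finite_range _)).biUnion
    fun r _ => (e.repr (f r)).finite_range
  let L := IntermediateField.adjoin K0 Y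
  have : Finite Y := hY
  have : FiniteDimensional K0 L := IntermediateField.finiteDimensional_adjoin
    (fun x _ => (Algebra.IsAlgebraic.isAlgebraic x).isIntegral)
  have hL0 : K0 ≤ L.toSubfield := fun x hx => L.algebraMap_mem ⟨x, hx⟩
  have hLK : L.toSubfield ≤ K' := by
    rw [IntermediateField.adjoin_toSubfield, Subfield.closure_le]
    rintro x (⟨y, rfl⟩ | hx)
    · exact hK y.2
    · obtain ⟨r, -, m, rfl⟩ := Set.mem_iUnion₂.1 hx
      exact hf r m
  have hL := h0.mono e hL0
  let bu := Module.finBasis K0 L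
  let bw := Module.Free.chooseBasis L Ω
  have := bw.index_nonempty
  let j := (SF e _ hL).subtype
  let g : SF e K0 h0 →+* SF e _ hL := Subring.inclusion fun s hs m => hL0 (hs m)
  let u : _ → SF e _ hL := fun l => ⟨_, alg_mem e hL (bu l).2⟩
  have hB : IsB g u := isB_of_basis e (F' := L.toSubfield) h0 j Subtype.val_injective
    (fun t m => t.2 m) g (fun _ => rfl) (fun l => (bu l : Ω))
    (bu.linearIndependent.map' L.val.toLinearMap (LinearMap.ker_eq_bot.2 Subtype.val_injective))
    (fun c hc => by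
      have := Submodule.apply_mem_span_image_of_mem_span L.val.toLinearMap (bu.mem_span ⟨c, hc⟩)
      rwa [← Set.range_comp] at this) u (fun _ => rfl)
  have hS : IsB (SF e K0 h0).subtype fun p : _ × _ => j (u p.1) * algebraMap Ω S (bw p.2) := by
    have := isB_top e h0 (bu.smulTower bw)
    simp only [Module.Basis.smulTower_apply] at this
    convert this using 2 with p
    rw [Algebra.smul_def, map_mul]
    rfl
  have hp := pull_coLe (j := j) (g := g) (fun _ => rfl) hB
    (fun i t => (Algebra.commutes (bw i) t).symm) hS le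
  have hin : ∀ r ∈ Set.range (fun p : _ × _ => φ.H p.1 p.2) ∪
      Set.range (fun p : _ × _ => ψ.H p.1 p.2), f r ∈ Set.range j := fun r hr =>
    ⟨⟨f r, fun m => IntermediateField.subset_adjoin _ _ (Set.mem_biUnion hr ⟨m, rfl⟩)⟩, rfl⟩
  obtain ⟨φ', hφ⟩ := lift_pp j (φ.map f) fun a b => hin _ (Or.inl ⟨(a, b), rfl⟩)
  obtain ⟨ψ', hψ⟩ := lift_pp j (ψ.map f) fun a b => hin _ (Or.inr ⟨(a, b), rfl⟩)
  refine noMin_co hB (fun l t => Subtype.ext (Algebra.commutes (bu l : Ω) t.1).symm) H hno φ' ψ' ?_
  rw [← hp]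
  refine ⟨?_, ?_, fun χ => ?_⟩
  · simp only [pull, hφ, hψ]; exact hm.1
  · simp only [pull, hφ, hψ]; exact hm.2.1
  · obtain ⟨χ', hχ⟩ := lift_pp f (χ.map j) fun a b => hf' _ fun m => hLK ((χ.H a b).2 m)
    simp only [pull, hφ, hψ, ← hχ]
    exact hm.2.2 χ'

end Pool.Agent.Lib.MP_1e63be_al.S42
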