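import Pool.Agent.Lib.MP_1e63be_al.S42.Fld

set_option autoImplicit false
set_option linter.unusedSectionVars false

universe u v w

namespace Pool.Agent.Lib.MP_1e63be_al.S42

open Pool.Agent.Lib.MP_1e63be_al Cardinal TensorProduct

section
variable {Ω S J : Type u} [Field Ω] [IsAlgClosed Ω] [Ring S] [Algebra Ω S]
  (e : Module.Basis J Ω S) {k : Subfield Ω} (hk : Form e k) {ι : Type u} {b : ι → Ω}
  (hb : IsTranscendenceBasis k b)

include hb in
theorem fin_supp (r : S) : ∃ F : Set ι, F.Finite ∧ ∀ j, e.repr r j ∈ acl k (b '' F) := by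
  have : ∀ j, ∃ F : Set ι, F.Finite ∧ e.repr r j ∈ acl k (b '' F) := fun j => by
    obtain ⟨I, h1, h2, h3⟩ := acl_fin k (X := b '' Set.univ) (x := e.repr r j)
      (by rw [Set.image_univ]; exact hb.isAlgebraic.1 _)
    obtain ⟨t, -, htf, rfl⟩ := Set.exists_subset_image_finite_and.1 ⟨I, h1, h2, rfl⟩
    exact ⟨t, htf, h3⟩
  choose F h1 h2 using this
  refine ⟨⋃ j ∈ (e.repr r).support, F j, (e.repr r).support.finite_toSet.biUnion
    (fun j _ => h1 j), fun j => ?_⟩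
  by_cases hj : j ∈ (e.repr r).support
  · exact acl_mono k (Set.image_mono (Set.subset_biUnion_of_mem (u := F) hj)) (h2 j)
  · rw [Finsupp.notMem_support_iff.1 hj]; exact zero_mem_acl k _

include hk hb in
theorem orbit_reps (T : Set ι) : ∃ Y : Set (F2 S), #Y ≤ max ℵ₀ (max #J (max #k #T)) ∧
    ∀ θ : F2 S, ∃ (τ : Ω ≃+* Ω) (π : Equiv.Perm ι) (σ : S ≃+* S),
      (∀ x ∈ acl k (b '' T), τ x = x) ∧ (∀ i, τ (b i) = b (π i)) ∧
      (∀ s j, e.repr (σ s) j = τ (e.repr s j)) ∧ θ.map σ ∈ Y := by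
  obtain ⟨O, hO1, hO2⟩ : ∃ O : Set ι, O.Countable ∧ ∀ F : Set ι, F.Finite →
      ∃ π : Equiv.Perm ι, (∀ i ∈ T, π i = i) ∧ π '' F ⊆ T ∪ O := by
    rcases Tᶜ.finite_or_infinite with h | h
    · exact ⟨Tᶜ, h.countable, fun F _ => ⟨1, fun _ _ => rfl, by simp⟩⟩
    · obtain ⟨O, h0, h1, h2⟩ := h.exists_subset_countable_infinite
      refine ⟨O, h1, fun F hF => ?_⟩
      obtain ⟨π, h3, hπ⟩ := exists_move T O F (Set.disjoint_left.2 fun x hx hx' => h0 hx' hx) h2 hF
      exact ⟨π, h3, hπ.trans (Set.union_subset_union_left _ Set.inter_subset_right)⟩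
  let sp : Set ι → Set S := fun T => {s | ∀ j, e.repr s j ∈ acl k (b '' T)}
  have hmono : ∀ {T T'}, T ⊆ T' → sp T ⊆ sp T' := fun h r hr j =>
    acl_mono k (Set.image_mono h) (hr j)
  refine ⟨{θ | SupF (sp (T ∪ O)) θ}, (mk_supF_le _).trans (max_le (le_max_left _ _)
    ((mk_coord_le e _).trans (max_le (le_max_left _ _) ?_))), fun θ => ?_⟩
  · rw [← Cardinal.mul_eq_self (le_max_left ℵ₀ (max #J (max #k #T)))]
    refine mul_le_mul ((le_max_left _ _).trans (le_max_right _ _)) ((mk_acl_le k _).trans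
      (max_le (max_le ((le_max_left _ _).trans ((le_max_right _ _).trans (le_max_right _ _))) ?_)
        (le_max_left _ _))) zero_le zero_le
    refine Cardinal.mk_image_le.trans ((Cardinal.mk_union_le _ _).trans
      ((Cardinal.add_le_max _ _).trans (max_le (max_le ?_ ?_) (le_max_left _ _))))
    · exact (le_max_right _ _).trans ((le_max_right _ _).trans (le_max_right _ _))
    · exact (Cardinal.le_aleph0_iff_set_countable.2 hO1).trans (le_max_left _ _)
  · choose F h1 h2 using fun i : (Fin θ.m ⊕ Fin θ.m) ⊕ (Fin θ.n × Fin θ.m) =>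
      fin_supp e hb (Sum.elim (Sum.elim θ.A θ.B) (fun p => θ.C p.1 p.2) i)
    have h2' : ∀ i, Sum.elim (Sum.elim θ.A θ.B) (fun p : Fin θ.n × Fin θ.m => θ.C p.1 p.2) i ∈
        sp (⋃ i, F i) :=
      fun i => hmono (Set.subset_iUnion F _) (h2 i)
    have h3 : SupF (sp (⋃ i, F i)) θ :=
      ⟨fun j => h2' (.inl (.inl j)), fun j => h2' (.inl (.inr j)), fun i j => h2' (.inr (i, j))⟩
    obtain ⟨π, hπT, hπ⟩ := hO2 _ (Set.finite_iUnion h1)
    obtain ⟨τ, k1, k2⟩ := exists_aut_acl k hb T π hπT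
    have k3 : ∀ c : k, τ (algebraMap k Ω c) = algebraMap k Ω c := fun c => k1 _
      (isAlgebraic_algebraMap (algebraMap k (Algebra.adjoin k (b '' T)) c))
    obtain ⟨σ, hσ⟩ := exists_ring_aut e τ (fun i j l => k3 ⟨_, hk.1 i j l⟩)
    refine ⟨τ, π, σ, k1, k2, hσ, h3.map fun r hr => hmono hπ fun j => ?_⟩
    have := acl_map k τ k3 (hr j)
    rw [hσ]
    rwa [Set.image_image, show (fun i => τ (b i)) = fun i => b (π i) from funext k2,
      ← Set.image_image b π] at this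

theorem map_K0 (τ : Ω ≃+* Ω) (π : ι → ι) (h1 : ∀ c ∈ k, τ c = c) (h2 : ∀ i, τ (b i) = b (π i))
    {x : Ω} (hx : x ∈ Subfield.closure ((k : Set Ω) ∪ Set.range b)) :
    τ x ∈ Subfield.closure ((k : Set Ω) ∪ Set.range b) := by
  have : Subfield.closure ((k : Set Ω) ∪ Set.range b) ≤
      (Subfield.closure ((k : Set Ω) ∪ Set.range b)).comap τ.toRingHom := by
    rw [Subfield.closure_le]
    rintro y (hy | ⟨i, rfl⟩)
    · exact Subfield.subset_closure (Or.inl (show τ y ∈ k by rwa [h1 y hy]))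
    · exact Subfield.subset_closure (Or.inr ⟨π i, (h2 i).symm⟩)
  exact this hx

include hk hb in
theorem fewOrbG {R : Type u} [Ring R] (f : R →+* S)
    (h0 : Form e (Subfield.closure ((k : Set Ω) ∪ Set.range b)))
    {le : PPCond (SF e _ h0) → PPCond (SF e _ h0) → Prop}
    (hI : ∀ σ1 : SF e _ h0 ≃+* SF e _ h0,
      (∀ a : SF e _ h0, (∀ j, e.repr a.1 j ∈ k) → σ1 a = a) → InvBy le σ1) :
    FewOrbG f (coLe (SF e _ h0).subtype le) (max ℵ₀ (max #J #k)) := by
  intro A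
  choose F hF1 hF2 using fun r : R => fin_supp e hb (f r)
  let T : Set ι := ⋃ r ∈ A, F r
  have hT : #T ≤ max #A ℵ₀ := by
    refine (Cardinal.mk_biUnion_le _ _).trans ?_
    refine (mul_le_mul (le_max_left #A ℵ₀) ((ciSup_le' fun r =>
      Cardinal.le_aleph0_iff_set_countable.2 (hF1 _).countable).trans (le_max_right #A ℵ₀))
      zero_le zero_le).trans ?_
    rw [Cardinal.mul_eq_self (le_max_right _ _)]
  obtain ⟨Y, h1, h2⟩ := orbit_reps e hk hb T
  choose τ π σ h3 h4 h5 h6 using h2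
  have hinv : ∀ θ, InvBy (coLe (SF e _ h0).subtype le) (σ θ) ∧
      InvBy (coLe (SF e _ h0).subtype le) (σ θ).symm := by
    intro θ
    have k1 : ∀ c ∈ k, τ θ c = c := fun c hc => h3 θ _
      (isAlgebraic_algebraMap (algebraMap k (Algebra.adjoin k (b '' T)) ⟨c, hc⟩))
    let σ1 : SF e _ h0 ≃+* SF e _ h0 := (σ θ).restrict _ _ fun s =>
      ⟨fun hs j => by rw [h5]; exact map_K0 (τ θ) (π θ) k1 (h4 θ) (hs j), fun hs j => by
        have := map_K0 (τ θ).symm (π θ).symm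
          (fun c hc => by rw [RingEquiv.symm_apply_eq, k1 c hc])
          (fun i => by rw [RingEquiv.symm_apply_eq, h4, Equiv.apply_symm_apply]) (hs j)
        rwa [h5, RingEquiv.symm_apply_apply] at this⟩
    have k2 : ∀ a : SF e _ h0, (∀ j, e.repr a.1 j ∈ k) → σ1 a = a := fun a ha =>
      Subtype.ext (e.repr.injective (Finsupp.ext fun j => (h5 θ _ j).trans (k1 _ (ha j))))
    exact ⟨fun _ _ h => inv_coLe (σ θ) σ1 (fun _ => rfl) (hI σ1 k2) h,
      fun _ _ h => inv_coLe (σ θ).symm σ1.symm (fun _ => rfl)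
        (hI σ1.symm fun a ha => by rw [RingEquiv.symm_apply_eq, k2 a ha]) h⟩
  have hcomp : ∀ θ θ', InvBy (coLe (SF e _ h0).subtype le) ((σ θ).trans (σ θ').symm) :=
    fun θ θ' a c h => (hinv θ').2 _ _ ((hinv θ).1 a c h)
  have hcomp' : ∀ θ θ', InvBy (coLe (SF e _ h0).subtype le) ((σ θ).trans (σ θ').symm).symm :=
    fun θ θ' => hcomp θ' θ
  let g : F2 R → Y := fun θ => ⟨_, h6 (θ.map f)⟩
  have hfix : ∀ θ, ∀ r ∈ A, σ θ (f r) = f r := fun θ r hr =>
    e.repr.injective (Finsupp.ext fun j => (h5 θ _ j).trans (h3 θ _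
      (acl_mono k (Set.image_mono (Set.subset_biUnion_of_mem (u := F) hr)) (hF2 r j))))
  have : Nonempty (F2 R) := ⟨(ptop R).subst 0 0⟩
  refine ⟨Set.range (Function.invFun g), Cardinal.mk_range_le.trans (h1.trans ?_),
    fun θ => ⟨_, ⟨g θ, rfl⟩, (σ (θ.map f)).trans (σ ((Function.invFun g (g θ)).map f)).symm,
      hcomp _ _, hcomp' _ _,
      fun r hr => ?_, ?_⟩⟩
  · have hc : ℵ₀ ≤ max #A (max ℵ₀ (max #J #k)) := (le_max_left _ _).trans (le_max_right _ _)
    refine max_le hc (max_le ?_ (max_le ?_ (hT.trans (max_le (le_max_left _ _) hc))))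
    · exact (le_max_left _ _).trans ((le_max_right _ _).trans (le_max_right _ _))
    · exact (le_max_right _ _).trans ((le_max_right _ _).trans (le_max_right _ _))
  · rw [RingEquiv.trans_apply, hfix _ r hr, RingEquiv.symm_apply_eq, hfix _ r hr]
  · have h5 : ((Function.invFun g (g θ)).map f).map (σ ((Function.invFun g (g θ)).map f)) =
        (θ.map f).map (σ (θ.map f)) :=
      congrArg Subtype.val (Function.invFun_eq (f := g) ⟨θ, rfl⟩)
    change ((θ.map f).map (σ (θ.map f))).map (σ ((Function.invFun g (g θ)).map f)).symm = _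
    rw [← h5]
    generalize (Function.invFun g (g θ)).map f = ρ
    cases ρ; simp [F2.map]

end

theorem hasCBRank_top_aux {R Ω S J : Type u} [Ring R] [Field Ω] [IsAlgClosed Ω] [Ring S]
    [Algebra Ω S] (e : Module.Basis J Ω S) (hJ : #J < 𝔠) (f : R →+* S)
    (hple : ∀ φ ψ, PLe (φ.map f) (ψ.map f) → PLe φ ψ) (K' : Subfield Ω) (hK : Form e K')
    [Algebra.IsAlgebraic K' Ω] (hf : ∀ r j, e.repr (f r) j ∈ K')
    (hf' : ∀ s, (∀ j, e.repr s j ∈ K') → s ∈ Set.range f)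
    (h : ∀ o : Ordinal.{u + 1}, ¬ rel PLe o (ptop R) (pbot R)) : HasCBRank (Zg R) ⊤ := by
  obtain ⟨P, h1, h2, h3, h4⟩ := exists_fan (defble_all.{u, u + 1} (R := R)) noMin_all
    (fun ⟨o, k⟩ => h o k)
  let A0 : Set R := ent (Prod.fst '' P ∪ Prod.snd '' P)
  have hA0 : #A0 ≤ ℵ₀ := (mk_ent_le _).trans (max_le
    (Cardinal.le_aleph0_iff_set_countable.2 ((h1.image _).union (h1.image _))) le_rfl)
  let k : Subfield Ω := Subfield.closure
    (((Set.range fun p : J × J × J => e.repr (e p.1 * e p.2.1) p.2.2) ∪ Set.range (e.repr 1)) ∪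
      Set.range fun p : A0 × J => e.repr (f p.1) p.2)
  have hk : Form e k := ⟨fun i j l => Subfield.subset_closure (Or.inl (Or.inl ⟨(i, j, l), rfl⟩)),
    fun j => Subfield.subset_closure (Or.inl (Or.inr ⟨j, rfl⟩))⟩
  have hkK : k ≤ K' := by
    rw [Subfield.closure_le]
    rintro _ ((⟨p, rfl⟩ | ⟨j, rfl⟩) | ⟨p, rfl⟩)
    · exact hK.1 _ _ _
    · exact hK.2 _
    · exact hf _ _
  have hkc : #k < 𝔠 := by
    have hmul : ∀ {a b : Cardinal.{u}}, a < 𝔠 → b < 𝔠 → a * b < 𝔠 := fun h1 h2 =>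
      Cardinal.mul_lt_of_lt Cardinal.aleph0_le_continuum h1 h2
    have hadd : ∀ {a b : Cardinal.{u}}, a < 𝔠 → b < 𝔠 → a + b < 𝔠 := fun h1 h2 =>
      Cardinal.add_lt_of_lt Cardinal.aleph0_le_continuum h1 h2
    refine (Subfield.cardinalMk_closure_le_max _).trans_lt (max_lt ((Cardinal.mk_union_le _ _).trans_lt
      (hadd ((Cardinal.mk_union_le _ _).trans_lt (hadd (Cardinal.mk_range_le.trans_lt ?_)
        (Cardinal.mk_range_le.trans_lt hJ))) (Cardinal.mk_range_le.trans_lt ?_)))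
      Cardinal.aleph0_lt_continuum)
    · simp only [Cardinal.mk_prod, Cardinal.lift_id]
      exact hmul hJ (hmul hJ hJ)
    · simp only [Cardinal.mk_prod, Cardinal.lift_id]
      exact hmul (hA0.trans_lt Cardinal.aleph0_lt_continuum) hJ
  have : Algebra.IsAlgebraic (Algebra.adjoin k (K' : Set Ω)) Ω := ⟨fun x =>
    IsAlgebraic.ringHom_of_comp_eq
      (K'.subtype.codRestrict (Algebra.adjoin k (K' : Set Ω)) fun y => Algebra.subset_adjoin y.2)
      (RingHom.id Ω) (Algebra.IsAlgebraic.isAlgebraic x)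
      (fun a c hac => Subtype.ext (congrArg (fun z : Algebra.adjoin k (K' : Set Ω) => z.1) hac))
      rfl⟩
  obtain ⟨t, ht, hb⟩ := exists_isTranscendenceBasis_subset (R := k) (K' : Set Ω)
  let K0 : Subfield Ω := Subfield.closure ((k : Set Ω) ∪ Set.range ((↑) : t → Ω))
  have hk0 : k ≤ K0 := fun x hx => Subfield.subset_closure (Or.inl hx)
  have h0 : Form e K0 := hk.mono e hk0
  have h0K : K0 ≤ K' := by
    rw [Subfield.closure_le]
    rintro x (hx | ⟨i, rfl⟩)
    · exact hkK hx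
    · exact ht i.2
  have hadj : ∀ y ∈ Algebra.adjoin k (Set.range ((↑) : t → Ω)), y ∈ K0 := by
    intro y hy
    induction hy using Algebra.adjoin_induction with
    | mem y hy => exact Subfield.subset_closure (Or.inr hy)
    | algebraMap c => exact hk0 c.2
    | add _ _ _ _ h1 h2 => exact add_mem h1 h2
    | mul _ _ _ _ h1 h2 => exact mul_mem h1 h2
  have : Algebra.IsAlgebraic K0 Ω := ⟨fun x =>
    IsAlgebraic.ringHom_of_comp_eq
      ((Algebra.adjoin k (Set.range ((↑) : t → Ω))).val.toRingHom.codRestrict K0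
        fun y => hadj y.1 y.2)
      (RingHom.id Ω) (hb.isAlgebraic.1 x)
      (fun a c hac => Subtype.ext (congrArg (fun z : K0 => z.1) hac)) rfl⟩
  let j := (SF e K0 h0).subtype
  let v := Module.Free.chooseBasis K0 Ω
  have := v.index_nonempty
  have hle : ∀ {le : PPCond (SF e K0 h0) → PPCond (SF e K0 h0) → Prop}, Defble le →
      ∀ {a b}, coLe j le (a.map j) (b.map j) → le a b := fun H _ _ k =>
    le_of_coLe (isB_top e h0 v) (fun i s => (Algebra.commutes (v i) s).symm) H k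
  have hA : ∀ {a b : PPCond (SF e K0 h0)} {c d : PPCond R}, a.map j = c.map f →
      b.map j = d.map f → PLe c d → PLe a b := fun k1 k2 k3 =>
    hle defble_PLe ((defble_coLe _ _).of_le (by rw [k1, k2]; exact k3.res f))
  have hcoord : ∀ φ ∈ Prod.fst '' P ∪ Prod.snd '' P, ∀ a b m, e.repr (f (φ.H a b)) m ∈ k :=
    fun φ hφ a b m => Subfield.subset_closure
      (Or.inr ⟨(⟨_, Set.mem_biUnion hφ ⟨(a, b), rfl⟩⟩, m), rfl⟩)
  have hlift : ∀ φ ∈ Prod.fst '' P ∪ Prod.snd '' P, ∃ φ' : PPCond (SF e K0 h0),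
      φ'.map j = φ.map f := fun φ hφ =>
    lift_pp j (φ.map f) fun a b => ⟨⟨_, fun m => hk0 (hcoord φ hφ a b m)⟩, rfl⟩
  let P1 : Set (PPCond (SF e K0 h0) × PPCond (SF e K0 h0)) :=
    {q | ∃ p ∈ P, q.1.map j = p.1.map f ∧ q.2.map j = p.2.map f}
  obtain ⟨le, H, hI, k1, k2⟩ := exists_inv_le (RingHom.id _) P1 (by
      rintro q ⟨p, hp, q1, q2⟩
      obtain ⟨c, c1, c2, c3, c4⟩ := h3 p hp
      choose c' hc' using fun i => hlift (c i) (Or.inr ⟨_, c4 i, rfl⟩)
      exact ⟨c', fun i => hA q2 (hc' i) (c1 i), fun i => hA (hc' i) q1 (c2 i),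
        fun i => hA (hc' i) (hc' _) (c3 i), fun i => ⟨_, c4 i, hc' _, hc' _⟩⟩)
    (by
      rintro q ⟨p, hp, q1, q2⟩ hq
      refine h4 p hp (hple _ _ ?_)
      rw [← q1, ← q2]
      exact PLe.res j (φ := q.1) (ψ := q.2) hq)
    (fun θ => ⟨Set.univ, ⟨fun _ => trivial, fun _ => trivial, fun _ _ => trivial⟩,
      1, fun _ => 1, fun _ => 1, by simp, by simp, by simp, fun s _ N _ _ g hg w => by
        simpa using hg s w⟩)
  have hsup : ∀ (a : PPCond (SF e K0 h0)) (φ : PPCond R), φ ∈ Prod.fst '' P ∪ Prod.snd '' P →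
      a.map j = φ.map f → SupP {x | ∀ m, e.repr x.1 m ∈ k} a := by
    intro a φ hφ ha
    have : SupP {x | ∀ m, e.repr x m ∈ k} (a.map j) := by
      rw [ha]; exact fun x y m => hcoord φ hφ x y m
    exact this
  refine hasCBRank_top ((defble_coLe j le).pull f) (isoCond_pullG (defble_coLe j le)
    (max_lt Cardinal.aleph0_lt_continuum (max_lt hJ hkc)) (fewOrbG e hk hb f h0
      fun σ1 hσ => hI σ1 ?_)) (noMin_pull e f h0 h0K hf hf' H k2) fun hc => ?_
  · rintro q ⟨p, hp, q1, q2⟩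
    exact ⟨(hsup _ _ (Or.inl ⟨p, hp, rfl⟩) q1).map_eq hσ,
      (hsup _ _ (Or.inr ⟨p, hp, rfl⟩) q2).map_eq hσ⟩
  · obtain ⟨a, ha⟩ := hlift (ptop R) (Or.inl ⟨_, h2, rfl⟩)
    obtain ⟨b, hb'⟩ := hlift (pbot R) (Or.inr ⟨_, h2, rfl⟩)
    refine k1 (a, b) ⟨_, h2, ha, hb'⟩ (hle H (a := a) (b := b) ?_)
    rw [ha, hb']
    exact hc

theorem hasCBRank_top_field (K R : Type u) [Field K] [Ring R] [Algebra K R]
    (h : Module.rank K R < 𝔠) (hn : ∀ o : Ordinal.{u + 1}, ¬ rel PLe o (ptop R) (pbot R)) :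
    HasCBRank (Zg R) ⊤ := by
  rw [Module.Free.rank_eq_card_chooseBasisIndex] at h
  let Ω := AlgebraicClosure K
  let e0 := Module.Free.chooseBasis K R
  let e := Algebra.TensorProduct.basis Ω e0
  let K' : Subfield Ω := (algebraMap K Ω).fieldRange
  have hf : ∀ r j, e.repr (incl K R Ω r) j ∈ K' := fun r j => by
    rw [incl_apply, Algebra.TensorProduct.basis_repr_tmul, one_smul, Finsupp.mapRange_apply]
    exact ⟨_, rfl⟩
  have he : ∀ j, e j = incl K R Ω (e0 j) := fun j => Algebra.TensorProduct.basis_apply _ _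
  have : Algebra.IsAlgebraic K' Ω := ⟨fun x =>
    IsAlgebraic.ringHom_of_comp_eq (algebraMap K Ω).rangeRestrictField (RingHom.id Ω)
      (Algebra.IsAlgebraic.isAlgebraic x) (RingHom.injective _) rfl⟩
  refine hasCBRank_top_aux e h (incl K R Ω) (ple_of_incl K R _) K'
    ⟨fun i j l => ?_, fun j => ?_⟩ hf (fun s hs => ?_) hn
  · rw [he, he, ← map_mul]; exact hf _ _
  · rw [← map_one (incl K R Ω)]; exact hf _ _
  · choose c hc using hs
    refine ⟨∑ m ∈ (e.repr s).support, c m • e0 m, ?_⟩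
    rw [map_sum]
    refine Eq.trans (Finset.sum_congr rfl fun m _ => ?_)
      ((Finsupp.linearCombination_apply _ _).symm.trans (e.linearCombination_repr s))
    change _ = e.repr s m • e m
    rw [← hc, he, incl_apply, incl_apply, TensorProduct.tmul_smul, algebraMap_smul]

theorem cb_eq_field (K R : Type u) [Field K] [Ring R] [Algebra K R]
    [Nontrivial R] (h : Module.rank K R < 𝔠) :
    ∃ ρ : WithTop Ordinal.{u + 1}, HasCBRank (Zg R) ρ ∧ HasCBRank (Zg Rᵐᵒᵖ) ρ := by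
  by_cases k : ∃ o : Ordinal.{u + 1}, rel PLe o (ptop R) (pbot R)
  · obtain ⟨o, ho⟩ := k
    obtain ⟨ρ, hρ⟩ := exists_relRank (R := R)
    exact ⟨ρ, hasCBRank_of_relRank (isoCond_of_finite ho) hρ,
      hasCBRank_of_relRank (isoCond_of_finite ((rel_op_iff o).1 ho)) (relRank_op hρ)⟩
  · push Not at k
    refine ⟨⊤, hasCBRank_top_field K R h k,
      hasCBRank_top_field K Rᵐᵒᵖ ?_ fun o ho => k o ((rel_op_iff o).2 ho)⟩
    rwa [← (MulOpposite.opLinearEquiv K (M := R)).rank_eq]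

end Pool.Agent.Lib.MP_1e63be_al.S42
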